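import Pool.Agent.MP_aef39a_lc.Defs

namespace Pool.Agent.MP_aef39a_lc

variable {Q A : Type}

@[simp] theorem act_nil (δ : Q → A → Q) (q : Q) : act δ q [] = q := rfl

@[simp] theorem act_cons (δ : Q → A → Q) (q : Q) (a : A) (w : List A) :
    act δ q (a :: w) = act δ (δ q a) w := rfl

theorem act_append (δ : Q → A → Q) (q : Q) (u v : List A) :
    act δ q (u ++ v) = act δ (act δ q u) v := by
  simp [act, List.foldl_append]

theorem act_congr (δ : Q → A → Q) (σ : Setoid Q)
    (hσ : ∀ (p q : Q) (a : A), σ.r p q → σ.r (δ p a) (δ q a)) (w : List A) :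
    ∀ p q : Q, σ.r p q → σ.r (act δ p w) (act δ q w) := by
  induction w with
  | nil => intro p q h; simpa using h
  | cons a w ih => intro p q h; simpa using ih _ _ (hσ p q a h)

end Pool.Agent.MP_aef39a_lc
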