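import Mathlib

/-!
Synchronizing automata: the notions of the problem file.
An automaton is given by its transition function `δ : Q → A → Q` (states `Q`, alphabet `A`).
-/

namespace Pool.Agent.MP_aef39a_lc

/-- The action `q · w` of a word on a state. -/
def act {Q A : Type} (δ : Q → A → Q) (q : Q) (w : List A) : Q := w.foldl δ q

/-- `w` is a reset word. -/
def IsReset {Q A : Type} (δ : Q → A → Q) (w : List A) : Prop :=
  ∀ p q : Q, act δ p w = act δ q w

/-- The reset threshold is exactly `(n - 1) ^ 2`. -/
def Extremal {Q A : Type} [Fintype Q] (δ : Q → A → Q) : Prop :=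
  IsLeast {k : ℕ | ∃ w : List A, IsReset δ w ∧ w.length = k} ((Fintype.card Q - 1) ^ 2)

/-- The only congruences are equality and the universal relation. -/
def Simple {Q A : Type} (δ : Q → A → Q) : Prop :=
  ∀ σ : Setoid Q, (∀ (p q : Q) (a : A), σ.r p q → σ.r (δ p a) (δ q a)) →
    (∀ p q : Q, σ.r p q ↔ p = q) ∨ (∀ p q : Q, σ.r p q)

/-- Every state can be reached from every state. -/
def StronglyConnected {Q A : Type} (δ : Q → A → Q) : Prop :=
  ∀ p q : Q, ∃ w : List A, act δ p w = q

end Pool.Agent.MP_aef39a_lc
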