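import Pool.Agent.MP_aef39a_lc.Defs

/-!
The rank of a word and the rank conjecture (Cerny-Pin conjecture for the minimum rank).
-/

namespace Pool.Agent.MP_aef39a_lc

/-- The rank of a word: the number of states of the form `q · w`. -/
noncomputable def rank {Q A : Type} (δ : Q → A → Q) (w : List A) : ℕ :=
  (Set.range fun q : Q => act δ q w).ncard

/-- The rank conjecture for automata with at most `n` states: if `r` is the least rank of a word,
some word of rank `r` has length at most `(|Q| - r) ^ 2`. -/
def RankConjectureUpTo (n : ℕ) : Prop :=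
  ∀ (Q A : Type) [Fintype Q] [Nonempty Q] [Fintype A] [Nonempty A] (δ : Q → A → Q) (r : ℕ),
    Fintype.card Q ≤ n → IsLeast (Set.range (rank δ)) r →
      ∃ u : List A, rank δ u = r ∧ u.length ≤ (Fintype.card Q - r) ^ 2

end Pool.Agent.MP_aef39a_lc
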