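import Pool.Agent.MP_aef39a_lc.Basic
import Pool.Agent.MP_aef39a_lc.RankDefs

/-!
The class-permuting lift of an automaton with a congruence.
-/

namespace Pool.Agent.MP_aef39a_lc

variable {Q A : Type}

/-- A map that acts on every class by a letter or by the identity and is injective on classes. -/
def Good (δ : Q → A → Q) (σ : Setoid Q) (f : Q → Q) : Prop :=
  (∀ p, (∃ a, ∀ q, σ.r q p → f q = δ q a) ∨ (∀ q, σ.r q p → f q = q)) ∧
    ∀ p q, σ.r (f p) (f q) → σ.r p q

/-- The lift: its letters are the good maps. -/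
def lift (δ : Q → A → Q) (σ : Setoid Q) (q : Q) (f : {f : Q → Q // Good δ σ f}) : Q := f.1 q

/-- The class of `p` can be reached from every state. -/
def Rec (δ : Q → A → Q) (σ : Setoid Q) (p : Q) : Prop := ∀ x, ∃ u, σ.r (act δ x u) p

theorem good_id (δ : Q → A → Q) (σ : Setoid Q) : Good δ σ id :=
  ⟨fun _ => Or.inr fun _ _ => rfl, fun _ _ h => h⟩

section
variable (δ : Q → A → Q) (σ : Setoid Q)
  (hσ : ∀ (p q : Q) (a : A), σ.r p q → σ.r (δ p a) (δ q a))
include hσ

theorem rec_step {p : Q} (h : Rec δ σ p) (a : A) : Rec δ σ (δ p a) := by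
  intro x
  obtain ⟨u, hu⟩ := h x
  exact ⟨u ++ [a], by rw [act_append]; exact hσ _ _ a hu⟩

theorem rec_act {p : Q} (h : Rec δ σ p) (v : List A) : Rec δ σ (act δ p v) := by
  induction v generalizing p with
  | nil => exact h
  | cons a v ih => exact ih (rec_step δ σ hσ h a)

/-- A word of the lift acts on one class as a word of the automaton that is no longer. -/
theorem project (u : List {f : Q → Q // Good δ σ f}) (p : Q) :
    ∃ v : List A, v.length ≤ u.length ∧ ∀ q, σ.r q p → act δ q v = act (lift δ σ) q u := by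
  induction u generalizing p with
  | nil => exact ⟨[], le_rfl, fun _ _ => rfl⟩
  | cons f u ih =>
    obtain ⟨v, hv, hv'⟩ := ih (f.1 p)
    rcases f.2.1 p with ⟨a, ha⟩ | h
    · refine ⟨a :: v, by simpa using hv, fun q hq => ?_⟩
      have h1 : f.1 q = δ q a := ha q hq
      have h2 : f.1 p = δ p a := ha p (σ.refl p)
      rw [act_cons, act_cons, lift, h1]
      exact hv' _ (by rw [h2]; exact hσ _ _ a hq)
    · refine ⟨v, by simp only [List.length_cons]; omega, fun q hq => ?_⟩
      have h1 : f.1 q = q := h q hq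
      have h2 : f.1 p = p := h p (σ.refl p)
      rw [act_cons, lift, h1]
      exact hv' _ (by rw [h2]; exact hq)

/-- Every letter on a recurrent class is realised by a good map. -/
theorem exists_good {p : Q} (hp : Rec δ σ p) (a : A) :
    ∃ f : Q → Q, Good δ σ f ∧ ∀ q, σ.r q p → f q = δ q a := by
  classical
  -- the quotient automaton
  let D : Quotient σ → A → Quotient σ := fun c b =>
    Quotient.map (fun q => δ q b) (fun x y h => hσ x y b h) c
  have hD : ∀ q b, D (Quotient.mk σ q) b = Quotient.mk σ (δ q b) := fun _ _ => rfl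
  let c : Quotient σ := Quotient.mk σ p
  have hex : ∀ x : Quotient σ, ∃ k, ∃ u : List A, u.length = k ∧ act D x u = c := by
    intro x
    induction x using Quotient.inductionOn with
    | h x =>
      obtain ⟨u, hu⟩ := hp x
      refine ⟨_, u, rfl, ?_⟩
      have : ∀ (u : List A) (x : Q), act D (Quotient.mk σ x) u = Quotient.mk σ (act δ x u) := by
        intro u
        induction u with
        | nil => intro x; rfl
        | cons b u ih => intro x; rw [act_cons, act_cons, hD, ih]
      rw [this]
      exact Quotient.sound hu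
  let len : Quotient σ → ℕ := fun x => Nat.find (hex x)
  have hstep : ∀ x : Quotient σ, ∃ b : A, (x = c → b = a) ∧ (x ≠ c → len (D x b) < len x) := by
    intro x
    by_cases hx : x = c
    · exact ⟨a, fun _ => rfl, fun h => absurd hx h⟩
    · obtain ⟨u, hu, hu'⟩ := Nat.find_spec (hex x)
      cases u with
      | nil => exact absurd hu' hx
      | cons b u =>
        refine ⟨b, fun h => absurd h hx, fun _ => ?_⟩
        have h1 : len (D x b) ≤ u.length := Nat.find_min' (hex _) ⟨u, rfl, hu'⟩
        have h2 : len x = u.length + 1 := by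
          simp only [List.length_cons] at hu
          exact hu.symm
        omega
  choose α hα1 hα2 using hstep
  let N : Quotient σ → Quotient σ := fun x => D x (α x)
  have hreach : ∀ (k : ℕ) (x : Quotient σ), len x ≤ k → ∃ j, N^[j] x = c := by
    intro k
    induction k with
    | zero =>
      intro x hx
      by_cases h : x = c
      · exact ⟨0, h⟩
      · have := hα2 x h
        omega
    | succ k ih =>
      intro x hx
      by_cases h : x = c
      · exact ⟨0, h⟩
      · have := hα2 x h
        obtain ⟨j, hj⟩ := ih (N x) (by simp only [N]; omega)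
        exact ⟨j + 1, hj⟩
  have hper : c ∈ Function.periodicPts N := by
    obtain ⟨j, hj⟩ := hreach _ (N c) le_rfl
    exact ⟨j + 1, Nat.succ_pos _, hj⟩
  have hbij := Function.bijOn_periodicPts (f := N)
  let f : Q → Q := fun q =>
    if Quotient.mk σ q ∈ Function.periodicPts N then δ q (α (Quotient.mk σ q)) else q
  have hf : ∀ q, Quotient.mk σ (f q) =
      if Quotient.mk σ q ∈ Function.periodicPts N then N (Quotient.mk σ q) else Quotient.mk σ q := by
    intro q
    simp only [f]
    split_ifs <;> rfl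
  refine ⟨f, ⟨fun x => ?_, fun x y hxy => ?_⟩, fun q hq => ?_⟩
  · by_cases hx : Quotient.mk σ x ∈ Function.periodicPts N
    · refine Or.inl ⟨α (Quotient.mk σ x), fun q hq => ?_⟩
      have e : Quotient.mk σ q = Quotient.mk σ x := Quotient.sound hq
      simp only [f, e, hx, if_true]
    · refine Or.inr fun q hq => ?_
      have e : Quotient.mk σ q = Quotient.mk σ x := Quotient.sound hq
      simp only [f, e, hx, if_false]
  · have e : Quotient.mk σ (f x) = Quotient.mk σ (f y) := Quotient.sound hxy
    rw [hf, hf] at e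
    apply Quotient.exact (s := σ)
    split_ifs at e with h1 h2 h2
    · exact hbij.injOn h1 h2 e
    · exact absurd (e ▸ hbij.mapsTo h1) h2
    · exact absurd (e.symm ▸ hbij.mapsTo h2) h1
    · exact e
  · have e : Quotient.mk σ q = c := Quotient.sound hq
    simp only [f, e, hper, if_true, hα1 c rfl]

/-- A word of the automaton acts on a recurrent class as some word of the lift. -/
theorem lift_word (v : List A) {p : Q} (hp : Rec δ σ p) :
    ∃ u : List {f : Q → Q // Good δ σ f}, ∀ q, σ.r q p → act (lift δ σ) q u = act δ q v := by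
  induction v generalizing p with
  | nil => exact ⟨[], fun _ _ => rfl⟩
  | cons a v ih =>
    obtain ⟨f, hf, hf'⟩ := exists_good δ σ hσ hp a
    obtain ⟨u, hu⟩ := ih (rec_step δ σ hσ hp a)
    refine ⟨⟨f, hf⟩ :: u, fun q hq => ?_⟩
    rw [act_cons, act_cons]
    change act (lift δ σ) (f q) u = _
    rw [hf' q hq]
    exact hu _ (hσ _ _ a hq)

end

theorem lift_inj (δ : Q → A → Q) (σ : Setoid Q) (u : List {f : Q → Q // Good δ σ f}) :
    ∀ p q, σ.r (act (lift δ σ) p u) (act (lift δ σ) q u) → σ.r p q := by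
  induction u with
  | nil => intro p q h; exact h
  | cons f u ih => intro p q h; exact f.2.2 _ _ (ih _ _ h)

theorem card_le_rank_lift [Fintype Q] (δ : Q → A → Q) (σ : Setoid Q)
    (u : List {f : Q → Q // Good δ σ f}) : Nat.card (Quotient σ) ≤ rank (lift δ σ) u := by
  unfold rank
  rw [← Nat.card_coe_set_eq]
  refine Nat.card_le_card_of_injective
    (fun c : Quotient σ => (⟨act (lift δ σ) c.out u, c.out, rfl⟩ :
      Set.range fun q : Q => act (lift δ σ) q u)) fun c d h => ?_
  have h1 : act (lift δ σ) c.out u = act (lift δ σ) d.out u := congrArg Subtype.val h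
  have h2 : σ.r c.out d.out := lift_inj δ σ u _ _ (h1 ▸ σ.refl _)
  rw [← c.out_eq, ← d.out_eq]
  exact Quotient.sound h2

theorem rank_append_lt {B : Type} [Fintype Q] (δ : Q → B → Q) (u v : List B) (p q : Q)
    (h1 : act δ p u ≠ act δ q u) (h2 : act δ (act δ p u) v = act δ (act δ q u) v) :
    rank δ (u ++ v) < rank δ u := by
  unfold rank
  have e : (Set.range fun q : Q => act δ q (u ++ v)) =
      (fun x => act δ x v) '' Set.range fun q : Q => act δ q u := by
    rw [← Set.range_comp]
    congr 1
    funext x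
    exact act_append δ x u v
  rw [e]
  refine lt_of_le_of_ne (Set.ncard_image_le (Set.toFinite _)) fun h => ?_
  rw [Set.ncard_image_iff (Set.toFinite _)] at h
  exact h1 (h ⟨p, rfl⟩ ⟨q, rfl⟩ h2)

theorem rank_eq_one_iff {B : Type} [Fintype Q] [Nonempty Q] (δ : Q → B → Q) (u : List B) :
    rank δ u = 1 ↔ IsReset δ u := by
  unfold rank
  rw [Set.ncard_eq_one]
  constructor
  · rintro ⟨x, hx⟩ p q
    have h1 : act δ p u ∈ ({x} : Set Q) := hx ▸ ⟨p, rfl⟩
    have h2 : act δ q u ∈ ({x} : Set Q) := hx ▸ ⟨q, rfl⟩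
    exact h1.trans h2.symm
  · intro h
    obtain ⟨p⟩ := ‹Nonempty Q›
    refine ⟨act δ p u, Set.eq_singleton_iff_unique_mem.2 ⟨⟨p, rfl⟩, ?_⟩⟩
    rintro _ ⟨q, rfl⟩
    exact h q p

theorem rank_pos {B : Type} [Fintype Q] [Nonempty Q] (δ : Q → B → Q) (u : List B) :
    1 ≤ rank δ u :=
  (Set.ncard_pos (Set.toFinite _)).2 (Set.range_nonempty _)

theorem reset_of_rankConjecture [Fintype Q] [Nonempty Q] [Fintype A] [Nonempty A]
    (δ : Q → A → Q) (hrank : RankConjectureUpTo (Fintype.card Q)) (hsync : ∃ w, IsReset δ w)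
    (σ : Setoid Q) (hσ : ∀ (p q : Q) (a : A), σ.r p q → σ.r (δ p a) (δ q a)) :
    ∃ w, IsReset δ w ∧ w.length ≤
      (Nat.card (Quotient σ) - 1) ^ 2 + (Fintype.card Q - Nat.card (Quotient σ)) ^ 2 := by
  classical
  obtain ⟨w0, hw0⟩ := hsync
  -- the quotient
  let D : Quotient σ → A → Quotient σ := fun c b =>
    Quotient.map (fun q => δ q b) (fun x y h => hσ x y b h) c
  have hD : ∀ (u : List A) (x : Q), act D (Quotient.mk σ x) u = Quotient.mk σ (act δ x u) := by
    intro u
    induction u with
    | nil => intro x; rfl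
    | cons b u ih => intro x; exact ih _
  let _i1 : Fintype (Quotient σ) := Fintype.ofFinite _
  have _j1 : Nonempty (Quotient σ) := ⟨Quotient.mk σ (Classical.arbitrary Q)⟩
  have hcard : Fintype.card (Quotient σ) ≤ Fintype.card Q :=
    Fintype.card_le_of_surjective _ Quotient.mk_surjective
  have hD0 : IsReset D w0 := by
    intro c d
    induction c using Quotient.inductionOn
    induction d using Quotient.inductionOn
    rw [hD, hD, hw0]
  obtain ⟨u1, hu1, hl1⟩ := hrank (Quotient σ) A D 1 hcard
    ⟨⟨w0, (rank_eq_one_iff D w0).2 hD0⟩, by rintro _ ⟨v, rfl⟩; exact rank_pos D v⟩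
  rw [rank_eq_one_iff] at hu1
  let p1 : Q := act δ (Classical.arbitrary Q) u1
  have hp1 : ∀ x, σ.r (act δ x u1) p1 := fun x => by
    apply Quotient.exact (s := σ)
    rw [← hD, ← hD]
    exact hu1 _ _
  have hrec : Rec δ σ p1 := fun x => ⟨u1, hp1 x⟩
  -- the lift
  let _i2 : Fintype {f : Q → Q // Good δ σ f} := Fintype.ofFinite _
  have _j2 : Nonempty {f : Q → Q // Good δ σ f} := ⟨⟨id, good_id δ σ⟩⟩
  have hne : (Set.range (rank (lift δ σ))).Nonempty := ⟨_, [], rfl⟩
  have hleast : IsLeast (Set.range (rank (lift δ σ))) (sInf _) :=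
    ⟨Nat.sInf_mem hne, fun _ hk => Nat.sInf_le hk⟩
  obtain ⟨u, hu, hl⟩ := hrank Q _ (lift δ σ) _ le_rfl hleast
  obtain ⟨v, hv, hv'⟩ := project δ σ hσ u p1
  have hsame : ∀ q, σ.r q p1 → act δ q v = act δ p1 v := by
    intro q hq
    by_contra hne'
    obtain ⟨z, hz⟩ := lift_word δ σ hσ w0 (rec_act δ σ hσ hrec v)
    have h1 := hv' q hq
    have h2 := hv' p1 (σ.refl _)
    have hlt := rank_append_lt (lift δ σ) u z q p1 (by rw [← h1, ← h2]; exact hne') (by
      rw [← h1, ← h2, hz _ (act_congr δ σ hσ v _ _ hq), hz _ (σ.refl _)]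
      exact hw0 _ _)
    have := hleast.2 ⟨u ++ z, rfl⟩
    omega
  refine ⟨u1 ++ v, fun p q => ?_, ?_⟩
  · rw [act_append, act_append, hsame _ (hp1 p), hsame _ (hp1 q)]
  · have hm := card_le_rank_lift δ σ u
    rw [hu] at hm
    have h3 : (Fintype.card Q - sInf (Set.range (rank (lift δ σ)))) ^ 2 ≤
        (Fintype.card Q - Nat.card (Quotient σ)) ^ 2 := Nat.pow_le_pow_left (by omega) 2
    rw [List.length_append, Nat.card_eq_fintype_card] at *
    omega

end Pool.Agent.MP_aef39a_lc
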